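import Pool.Agent.helper43.BMH.Spec

set_option autoImplicit false

/-!
# Row GIB
-/

namespace Pool.Agent.helper43.BMH

theorem t_gib : GIB := by
  intro Ω α _ _ _ X r hr hsum
  have hn : (0 : ℝ) < (Fintype.card Ω : ℝ) := by exact_mod_cast Fintype.card_pos
  have hpr : ∀ w, 0 < pr X (X w) := by
    intro w
    unfold pr
    apply div_pos _ hn
    have h1 : w ∈ Finset.univ.filter (fun w' => X w' = X w) := by simp
    exact_mod_cast Finset.card_pos.2 ⟨w, h1⟩
  have h1 : ∑ w, r (X w) / pr X (X w) = (Fintype.card Ω : ℝ) * ∑ a ∈ Finset.univ.image X, r a := by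
    rw [← Finset.sum_fiberwise_of_maps_to (s := Finset.univ) (t := Finset.univ.image X) (g := X)
      (fun w _ => Finset.mem_image_of_mem X (Finset.mem_univ w)), Finset.mul_sum]
    refine Finset.sum_congr rfl fun a ha => ?_
    obtain ⟨w₀, _, rfl⟩ := Finset.mem_image.1 ha
    have h2 : ∀ w ∈ Finset.univ.filter (fun w => X w = X w₀),
        r (X w) / pr X (X w) = r (X w₀) / pr X (X w₀) := by
      intro w hw
      rw [(Finset.mem_filter.1 hw).2]
    rw [Finset.sum_congr rfl h2, Finset.sum_const, nsmul_eq_mul]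
    have h3 : ((Finset.univ.filter (fun w => X w = X w₀)).card : ℝ) =
        pr X (X w₀) * (Fintype.card Ω : ℝ) := by
      unfold pr
      rw [div_mul_cancel₀ _ hn.ne']
    rw [h3]
    have h4 := (hpr w₀).ne'
    field_simp
  have h2 : ∑ w, (Real.log (r (X w)) - Real.log (pr X (X w))) ≤
      ∑ w, (r (X w) / pr X (X w) - 1) := by
    refine Finset.sum_le_sum fun w _ => ?_
    rw [← Real.log_div (hr w).ne' (hpr w).ne']
    exact Real.log_le_sub_one_of_pos (div_pos (hr w) (hpr w))
  rw [Finset.sum_sub_distrib, Finset.sum_sub_distrib, h1, Finset.sum_const, Finset.card_univ,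
    nsmul_eq_mul, mul_one] at h2
  have h3 : (Fintype.card Ω : ℝ) * ∑ a ∈ Finset.univ.image X, r a ≤ (Fintype.card Ω : ℝ) * 1 :=
    mul_le_mul_of_nonneg_left hsum hn.le
  unfold Ent
  apply div_le_div_of_nonneg_right _ hn.le
  linarith

end Pool.Agent.helper43.BMH
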